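import Pool.Agent.MWG.Stmts

/-! Row BFI of squad MWG: a letter between two of its occurrences does not matter for `Bef`. -/

namespace Pool.Agent.MWG.H53

open Pool.Agent.Helper14_MV Pool.Agent.Helper2_MV Pool.Agent.MVO Pool.Agent.MWL Pool.Agent.MWS
  Pool.Agent.MWG

lemma nbef_iff (l : List ℕ) (x y : ℕ) : ¬ Bef l x y ↔ List.Sublist [y, x] l := by
  constructor
  · intro h
    unfold Bef at h
    push Not at h
    obtain ⟨P, Q, hl, hx⟩ := h
    subst hl
    have h1 : List.Sublist [x] Q := List.singleton_sublist.2 hx
    have h2 : List.Sublist (y :: [x]) (y :: Q) := h1.cons_cons y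
    exact h2.trans (List.sublist_append_right P (y :: Q))
  · intro h hB
    rw [List.cons_sublist_iff] at h
    obtain ⟨r1, r2, hl, hy, hx⟩ := h
    obtain ⟨s, t, hr⟩ := List.append_of_mem hy
    have hxr : x ∈ r2 := List.singleton_sublist.1 hx
    have hl2 : l = s ++ y :: (t ++ r2) := by
      rw [hl, hr]
      simp
    exact hB s (t ++ r2) hl2 (List.mem_append_right _ hxr)

theorem bfi : BfiStmt := by
  intro U V y c d hyU hyV _
  rw [← not_iff_not, nbef_iff, nbef_iff]
  constructor
  · intro h
    rw [List.sublist_append_iff] at h
    obtain ⟨l1, l2, he, h1, h2⟩ := h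
    rcases l1 with _ | ⟨e, l1⟩
    · simp only [List.nil_append] at he
      subst he
      rw [List.sublist_cons_iff] at h2
      rcases h2 with h2 | ⟨r, hr, h2⟩
      · exact h2.trans (List.sublist_append_right U V)
      · simp only [List.cons.injEq] at hr
        obtain ⟨hd, hr⟩ := hr
        subst hd
        subst hr
        have h3 : List.Sublist [d] U := List.singleton_sublist.2 hyU
        exact h3.append h2
    · rcases l1 with _ | ⟨f, l1⟩
      · simp only [List.cons_append, List.nil_append, List.cons.injEq] at he
        obtain ⟨hd, hc⟩ := he
        subst hd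
        subst hc
        rw [List.sublist_cons_iff] at h2
        rcases h2 with h2 | ⟨r, hr, h2⟩
        · exact h1.append h2
        · simp only [List.cons.injEq] at hr
          obtain ⟨hd, hr⟩ := hr
          subst hd
          have h3 : List.Sublist [c] V := List.singleton_sublist.2 hyV
          exact h1.append h3
      · simp only [List.cons_append, List.cons.injEq] at he
        obtain ⟨hd, hc, hn⟩ := he
        subst hd
        subst hc
        have hn2 := hn.symm
        rw [List.append_eq_nil_iff] at hn2
        obtain ⟨hn3, hn4⟩ := hn2
        subst hn3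
        exact h1.trans (List.sublist_append_left U V)
  · intro h
    exact h.trans ((List.Sublist.refl U).append (List.sublist_cons_self y V))

end Pool.Agent.MWG.H53
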