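import Pool.Agent.MWG.Stmts

/-! Row CBT of squad MWG: the types of the families `cb`. -/

namespace Pool.Agent.MWG.H53

open Pool.Agent.Helper14_MV Pool.Agent.Helper2_MV Pool.Agent.MVO Pool.Agent.MWL Pool.Agent.MWS
  Pool.Agent.MWG

lemma hm_zero (a : ℕ → ℕ) (j : ℕ) : hm a j = 0 ↔ a j = 0 := by
  unfold hm
  split_ifs with h1 h2 <;> simp_all

lemma hm_one (a : ℕ → ℕ) (j : ℕ) : hm a j = 1 ↔ Lf a j := by
  unfold hm
  split_ifs with h1 h2
  · constructor
    · intro h; exact absurd h (by decide)
    · intro h; have := h.1; omega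
  · exact ⟨fun _ => h2, fun _ => rfl⟩
  · constructor
    · intro h; exact absurd h (by decide)
    · intro h; exact absurd h h2

lemma lf_iff (g a : ℕ → ℕ) (h0 : ∀ j, g j = 0 ↔ a j = 0)
    (h1 : ∀ j, (∀ j' < j, a j' = 0) → (g j = 1 ↔ a j = 1)) (j : ℕ) : Lf g j ↔ Lf a j := by
  constructor
  · rintro ⟨hg, hz⟩
    have hz' : ∀ j' < j, a j' = 0 := fun j' hj' => (h0 j').1 (hz j' hj')
    exact ⟨(h1 j hz').1 hg, hz'⟩
  · rintro ⟨hg, hz⟩
    exact ⟨(h1 j hz).2 hg, fun j' hj' => (h0 j').2 (hz j' hj')⟩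

lemma deg_two (k : ℕ) (g a : ℕ → ℕ) (i : ℕ) (hi : i ≤ k) (h0 : ∀ j, g j = 0 ↔ a j = 0)
    (hd : 2 ≤ deg k a) (ha : a i = 1) : 2 ≤ deg k g := by
  have hex : ∃ j, j ≤ k ∧ j ≠ i ∧ a j ≠ 0 := by
    by_contra hne
    push Not at hne
    have : deg k a = a i := by
      unfold deg
      apply Finset.sum_eq_single i
      · intro j hj hji
        exact hne j (by have := Finset.mem_range.1 hj; omega) hji
      · intro h
        exact absurd (Finset.mem_range.2 (by omega)) h
    omega
  obtain ⟨j, hjk, hji, hj⟩ := hex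
  have h1 : 1 ≤ g i := by
    rcases Nat.eq_zero_or_pos (g i) with h | h
    · have := (h0 i).1 h; omega
    · exact h
  have h2 : 1 ≤ g j := by
    rcases Nat.eq_zero_or_pos (g j) with h | h
    · exact absurd ((h0 j).1 h) hj
    · exact h
  have h3 : g i + g j ≤ deg k g := by
    unfold deg
    exact Finset.add_le_sum (fun _ _ => Nat.zero_le _) (Finset.mem_range.2 (by omega))
      (Finset.mem_range.2 (by omega)) (Ne.symm hji)
  omega

lemma ty0 (a b : ℕ → ℕ) (i : ℕ) (l : List ℕ) (j : ℕ) :
    ty (cb a b i l) 0 j = if j = i then l.count 0 else hm a j := by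
  unfold ty cb
  split_ifs with h
  · rfl
  · simp [List.count_append, List.count_replicate]

lemma ty1 (a b : ℕ → ℕ) (i : ℕ) (l : List ℕ) (j : ℕ) :
    ty (cb a b i l) 1 j = if j = i then l.count 1 else hm b j := by
  unfold ty cb
  split_ifs with h
  · rfl
  · simp [List.count_append, List.count_replicate]

theorem cbt : CbtStmt := by
  intro k a b i l hR hA
  obtain ⟨⟨hik, hLa, hbi, hv⟩, hda, hdb⟩ := hR
  obtain ⟨hl, hl0, hl1, hl2⟩ := hA
  have hl1' : l.count 1 ≠ 0 := by
    by_cases h : Lf b i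
    · have := hl1 h; omega
    · have := hl2 h; omega
  have z0 : ∀ j, ty (cb a b i l) 0 j = 0 ↔ a j = 0 := by
    intro j
    rw [ty0]
    split_ifs with h
    · subst h
      have := hLa.1
      omega
    · exact hm_zero a j
  have z1 : ∀ j, ty (cb a b i l) 1 j = 0 ↔ b j = 0 := by
    intro j
    rw [ty1]
    split_ifs with h
    · subst h
      exact ⟨fun h => absurd h hl1', fun h => absurd h hbi⟩
    · exact hm_zero b j
  have o0 : ∀ j, (∀ j' < j, a j' = 0) → (ty (cb a b i l) 0 j = 1 ↔ a j = 1) := by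
    intro j hj
    rw [ty0]
    split_ifs with h
    · subst h
      have := hLa.1
      omega
    · rw [hm_one]
      exact ⟨fun h => h.1, fun h => ⟨h, hj⟩⟩
  have o1 : ∀ j, (∀ j' < j, b j' = 0) → (ty (cb a b i l) 1 j = 1 ↔ b j = 1) := by
    intro j hj
    rw [ty1]
    split_ifs with h
    · subst h
      by_cases hb : Lf b j
      · have h1 := hl1 hb
        have h2 := hb.1
        omega
      · have h1 := hl2 hb
        constructor
        · intro h; omega
        · intro h; exact absurd ⟨h, hj⟩ hb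
    · rw [hm_one]
      exact ⟨fun h => h.1, fun h => ⟨h, hj⟩⟩
  have htwo : Two01 k (cb a b i l) := by
    intro j hj c hc
    unfold cb at hc
    split_ifs at hc with h
    · exact hl c hc
    · rcases List.mem_append.1 hc with h | h
      · exact Or.inl (List.eq_of_mem_replicate h)
      · exact Or.inr (List.eq_of_mem_replicate h)
  refine ⟨⟨?_, ?_⟩, htwo, ?_, ?_⟩
  · intro j hj c hc
    unfold NS
    rcases htwo j hj c hc with h | h <;> omega
  · intro j hj c hc
    rcases htwo j hj c hc with h | h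
    · subst h
      exact deg_two k (ty (cb a b i l) 0) a i hik z0 hda hLa.1
    · subst h
      by_cases hb : Lf b i
      · exact deg_two k (ty (cb a b i l) 1) b i hik z1 hdb hb.1
      · have h1 : 2 ≤ ty (cb a b i l) 1 i := by
          rw [ty1, if_pos rfl]
          exact hl2 hb
        have h2 : ty (cb a b i l) 1 i ≤ deg k (ty (cb a b i l) 1) := by
          unfold deg
          exact Finset.single_le_sum (f := ty (cb a b i l) 1) (fun _ _ => Nat.zero_le _)
            (Finset.mem_range.2 (by omega))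
        exact le_trans h1 h2
  · intro j _
    exact ⟨z0 j, lf_iff _ _ z0 o0 j⟩
  · intro j _
    exact ⟨z1 j, lf_iff _ _ z1 o1 j⟩

end Pool.Agent.MWG.H53
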